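import Pool.Agent.helper88.PF.Spec

/-!
# Project pf, row CCN: conjunctive normal form
-/

set_option linter.unusedVariables false

namespace PF

/-- truth of a set of clauses, for an arbitrary valuation of the atoms -/
def CCN_cl (v : Tm × Tm → Prop) (cl : List Cla) : Prop :=
  ∀ d ∈ cl, (∀ h ∈ d.1, v h) → ∃ a ∈ d.2, v a

theorem CCN_append (v : Tm × Tm → Prop) (X Y : List Cla) :
    CCN_cl v (X ++ Y) ↔ CCN_cl v X ∧ CCN_cl v Y := by
  unfold CCN_cl
  constructor
  · intro h
    exact ⟨fun d hd => h d (List.mem_append.2 (Or.inl hd)),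
      fun d hd => h d (List.mem_append.2 (Or.inr hd))⟩
  · rintro ⟨h1, h2⟩ d hd
    rcases List.mem_append.1 hd with hd | hd
    · exact h1 d hd
    · exact h2 d hd

theorem CCN_mem_dist {A : Type} {X Y : List (List A × List A)} {d : List A × List A} :
    d ∈ dist X Y ↔ ∃ x ∈ X, ∃ y ∈ Y, d = (x.1 ++ y.1, x.2 ++ y.2) := by
  unfold dist
  simp only [List.mem_flatMap, List.mem_map]
  constructor
  · rintro ⟨x, hx, y, hy, rfl⟩
    exact ⟨x, hx, y, hy, rfl⟩
  · rintro ⟨x, hx, y, hy, rfl⟩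
    exact ⟨x, hx, y, hy, rfl⟩

theorem CCN_dist (v : Tm × Tm → Prop) (X Y : List Cla) :
    CCN_cl v (dist X Y) ↔ CCN_cl v X ∨ CCN_cl v Y := by
  constructor
  · intro h
    by_contra hn
    rw [not_or] at hn
    obtain ⟨h1, h2⟩ := hn
    unfold CCN_cl at h1 h2
    push Not at h1 h2
    obtain ⟨x, hx, hx1, hx2⟩ := h1
    obtain ⟨y, hy, hy1, hy2⟩ := h2
    obtain ⟨a, ha, hva⟩ := h (x.1 ++ y.1, x.2 ++ y.2) (CCN_mem_dist.2 ⟨x, hx, y, hy, rfl⟩) (by
      intro t ht
      rcases List.mem_append.1 ht with ht | ht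
      · exact hx1 t ht
      · exact hy1 t ht)
    rcases List.mem_append.1 ha with ha | ha
    · exact hx2 a ha hva
    · exact hy2 a ha hva
  · rintro (h | h) d hd
    · obtain ⟨x, hx, y, hy, rfl⟩ := CCN_mem_dist.1 hd
      intro ht
      obtain ⟨a, ha, hva⟩ := h x hx fun t htx => ht t (List.mem_append.2 (Or.inl htx))
      exact ⟨a, List.mem_append.2 (Or.inl ha), hva⟩
    · obtain ⟨x, hx, y, hy, rfl⟩ := CCN_mem_dist.1 hd
      intro ht
      obtain ⟨a, ha, hva⟩ := h y hy fun t hty => ht t (List.mem_append.2 (Or.inr hty))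
      exact ⟨a, List.mem_append.2 (Or.inr ha), hva⟩

theorem CCN_both (s : ℕ → ℕ → Prop) (φ : Fm) :
    (φ.HAE s ↔ CCN_cl (fun h => AE (fun p => eqAt (s p) h)) (φ.cnf true)) ∧
    (¬ φ.HAE s ↔ CCN_cl (fun h => AE (fun p => eqAt (s p) h)) (φ.cnf false)) := by
  induction φ with
  | eq a b =>
    constructor
    · simp [Fm.HAE, Fm.cnf, CCN_cl]
    · simp [Fm.HAE, Fm.cnf, CCN_cl]
  | neg a ih =>
    constructor
    · exact ih.2
    · show ¬ ¬ a.HAE s ↔ _
      rw [not_not]
      exact ih.1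
  | and a b iha ihb =>
    constructor
    · show a.HAE s ∧ b.HAE s ↔ CCN_cl _ (a.cnf true ++ b.cnf true)
      rw [CCN_append, iha.1, ihb.1]
    · show ¬ (a.HAE s ∧ b.HAE s) ↔ CCN_cl _ (dist (a.cnf false) (b.cnf false))
      rw [CCN_dist, ← iha.2, ← ihb.2, not_and_or]
  | or a b iha ihb =>
    constructor
    · show a.HAE s ∨ b.HAE s ↔ CCN_cl _ (dist (a.cnf true) (b.cnf true))
      rw [CCN_dist, iha.1, ihb.1]
    · show ¬ (a.HAE s ∨ b.HAE s) ↔ CCN_cl _ (a.cnf false ++ b.cnf false)
      rw [CCN_append, ← iha.2, ← ihb.2, not_or]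

theorem CCN_pol (F : ℕ → Prop) (φ : Fm) : ∀ s : Bool, φ.Pol F s → ∀ d ∈ φ.cnf s, ∀ h ∈ d.1, ∀ i,
    h.1.Occ i ∨ h.2.Occ i → F i := by
  induction φ with
  | eq a b =>
    intro s hs d hd h hh i hi
    cases s with
    | true => simp [Fm.cnf] at hd; rw [hd] at hh; simp at hh
    | false =>
      simp [Fm.cnf] at hd
      rw [hd] at hh
      simp at hh
      rw [hh] at hi
      exact hs i hi
  | neg a ih =>
    intro s hs
    exact ih (!s) hs
  | and a b iha ihb =>
    intro s hs d hd h hh i hi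
    obtain ⟨ha, hb⟩ : a.Pol F s ∧ b.Pol F s := by cases s <;> exact hs
    cases s with
    | true =>
      rcases List.mem_append.1 (show d ∈ a.cnf true ++ b.cnf true from hd) with hd | hd
      · exact iha true ha d hd h hh i hi
      · exact ihb true hb d hd h hh i hi
    | false =>
      obtain ⟨x, hx, y, hy, rfl⟩ := CCN_mem_dist.1 (show d ∈ dist (a.cnf false) (b.cnf false) from hd)
      rcases List.mem_append.1 hh with hh | hh
      · exact iha false ha x hx h hh i hi
      · exact ihb false hb y hy h hh i hi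
  | or a b iha ihb =>
    intro s hs d hd h hh i hi
    obtain ⟨ha, hb⟩ : a.Pol F s ∧ b.Pol F s := by cases s <;> exact hs
    cases s with
    | false =>
      rcases List.mem_append.1 (show d ∈ a.cnf false ++ b.cnf false from hd) with hd | hd
      · exact iha false ha d hd h hh i hi
      · exact ihb false hb d hd h hh i hi
    | true =>
      obtain ⟨x, hx, y, hy, rfl⟩ := CCN_mem_dist.1 (show d ∈ dist (a.cnf true) (b.cnf true) from hd)
      rcases List.mem_append.1 hh with hh | hh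
      · exact iha true ha x hx h hh i hi
      · exact ihb true hb y hy h hh i hi

theorem CCN : CCN_stmt := by
  constructor
  · intro φ s
    exact (CCN_both s φ).1
  · intro φ F hF
    exact CCN_pol F φ true hF

end PF
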